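import Pool.Agent.Q264.HM.Stm

/-!
# Job JUMP of the project HM of helper264 (author: helper247)
-/

set_option autoImplicit false

namespace Pool.Agent.Q247.HM

open Pool.Agent.Q264.HM

/-- the value of a letter -/
def lt {ι G : Type} [Group G] (y : ι → G) (p : ι × Bool) : G := if p.2 then y p.1 else (y p.1)⁻¹

lemma val_nil {ι G : Type} [Group G] (y : ι → G) : val y [] = 1 := rfl

lemma val_cons {ι G : Type} [Group G] (y : ι → G) (p : ι × Bool) (w : List (ι × Bool)) :
    val y (p :: w) = lt y p * val y w := by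
  simp only [val, lt, List.map_cons, List.prod_cons]

lemma val_append {ι G : Type} [Group G] (y : ι → G) (u w : List (ι × Bool)) :
    val y (u ++ w) = val y u * val y w := by
  simp only [val, List.map_append, List.prod_append]

lemma val_inv {ι G : Type} [Group G] (y : ι → G) (w : List (ι × Bool)) :
    ∃ u : List (ι × Bool), u.length = w.length ∧ val y u = (val y w)⁻¹ := by
  induction w with
  | nil => exact ⟨[], rfl, by rw [val_nil, inv_one]⟩
  | cons p w ih =>
    obtain ⟨u, h1, h2⟩ := ih
    refine ⟨u ++ [(p.1, !p.2)], by simp [h1], ?_⟩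
    rw [val_append, val_cons, val_cons, val_nil, mul_one, h2, mul_inv_rev]
    congr 1
    rcases p with ⟨i, b⟩
    cases b
    · simp [lt]
    · simp [lt]

lemma step {H : Type} [Group H] {n N : ℕ} (T : Cosets H n N) (c : Fin N) (v z : H) :
    T.f (T.σ c * (v * z)) = T.f (T.σ c * v) * T.f (T.σ (T.κ (T.σ c * v)) * z) := by
  rw [← T.f_mul, ← mul_assoc, ← mul_assoc, ← T.eq]

lemma bound {H : Type} [Group H] {n N k : ℕ} (T : Cosets H n N) (x : Fin k → H) :
    ∃ R : ℕ, ∀ (w : List (Fin k × Bool)) (c : Fin N),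
      (T.f (T.σ c * val x w)).norm ≤ R * w.length := by
  refine ⟨∑ q : Fin N × (Fin k × Bool), (T.f (T.σ q.1 * lt x q.2)).norm, fun w => ?_⟩
  induction w with
  | nil =>
    intro c
    rw [val_nil, mul_one, T.fσ]
    simp
  | cons p w ih =>
    intro c
    rw [val_cons, step]
    refine (FreeGroup.norm_mul_le _ _).trans ?_
    have h1 := Finset.single_le_sum
      (f := fun q : Fin N × (Fin k × Bool) => (T.f (T.σ q.1 * lt x q.2)).norm)
      (fun _ _ => Nat.zero_le _) (Finset.mem_univ (c, p))
    have h2 := ih (T.κ (T.σ c * lt x p))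
    rw [List.length_cons, mul_add, mul_one]
    simp only at h1
    omega

/-- **Job JUMP.** -/
theorem t_JUMP : S_JUMP := by
  intro H _ n N k T x
  obtain ⟨R, hR⟩ := bound T x
  refine ⟨R, fun w c => ⟨hR w c, ?_⟩⟩
  obtain ⟨u, h1, h2⟩ := val_inv x w
  rw [← h2, ← h1]
  exact hR u c

end Pool.Agent.Q247.HM
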